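import Mathlib
import Pool.Agent.H274.Iso3

/-!
# Selberg's eigenvalue conjecture: an exceptional eigenvalue forces many small Hecke eigenvalues at every scale

Let `f` be a newform of weight `0` (a Maass cusp form) for a congruence subgroup, with Laplace eigenvalue
`μ = 1/4 - θ²`, `θ ≥ 0` (`θ = 0` stands for all `μ ≥ 1/4`). Selberg's conjecture says `θ = 0`; known is `θ ≤ 7/64` (Kim,
Sarnak). Let `λ(p)` be the Hecke eigenvalues, normalized such that the Ramanujan conjecture is `|λ(p)| ≤ 2`. We show, for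
every `δ > 0`: if `1/2 ≤ c < 8 θ`, then for **all** large `X` there are at least `X^c` primes `p ∈ [X^{1-δ}, X]` such that

  `0 < |λ(p)| < 1`  or  `√2 < |λ(p)| < √3`.

(Under the Sato-Tate conjecture these are about `73` percent of the primes. But the known asymptotics for the moments
`∑ |λ(p)|^{2 m}`, `m ≤ 4`, do not show that such primes have positive density, or even that they exist: the moments are also those
of the discrete distribution of `|λ|²` with the masses `1/3, 1/2, 1/6` at `0, 1, 3`.)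

So one sequence of scales suffices to bound all exceptional eigenvalues: *if there are `c ≥ 1/2`, `δ > 0` and arbitrarily
large `X` for which fewer than `X^c` primes `p ∈ [X^{1-δ}, X]` are as above, then `μ ≥ 1/4 - c²/64`.* With `c = 1/2` this
is `μ ≥ 63/256 = 0.246...`, more than the known bound `975/4096 = 0.238...`.

The result holds also for `c < 8 θ_p` if `f` violates the Ramanujan conjecture at a prime `p ∉ S`,
`max |α_{i,p}| = p^{θ_p}`; and there is a version for finite families `f_t`, `t ∈ T`: for all large `X`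

  `∑_{X^{1-δ} ≤ p^k ≤ X} max(0, |T| - ∑_t |tr Sym⁴ f_t (p^k)|²) ≥ X^c`

if `c < 1/2` or `c < 8 θ_t` for some `t`; and at least `X^c` primes `p ∈ [X^{1-δ}, X]` satisfy
`∑_t (|λ_t(p)|⁴ - 3 |λ_t(p)|² + 1)² < |T|` if `1/2 ≤ c < 8 θ_t` for some `t`.

The structure `MaassNewform` lists what is used of `f`. It is known if `f` is not dihedral, tetrahedral or octahedral
(in these cases `θ = 0`, and all `θ_p = 0`): `f` has a unitary central character, `Sym⁴ f` is a cuspidal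
representation of `GL_5` over `ℚ` (Kim; Kim and Shahidi), its Rankin-Selberg `L`-function
`L(s, Sym⁴ f × Sym⁴ f~)` is entire except for a simple pole at `s = 1`, with the functional equation
(Jacquet, Piatetski-Shapiro, Shalika; Moeglin, Waldspurger), and `Γ_ℝ(s - 8 θ)` is one of its Gamma factors, as the
parameters of `Sym⁴ f` at the real place are `4 θ, 2 θ, 0, -2 θ, -4 θ`.

The proof: the Gamma factor forces the trivial zero `L(8 θ, Sym⁴ f × Sym⁴ f~) = 0`, to the right of `1/2` in the critical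
strip. Let `F(s) = L(s, Sym⁴ f × Sym⁴ f~) / ζ(s)`, `log F(s) = ∑ d(q) q^{-s}`, `d(p^k) = (|tr Sym⁴ f (p^k)|² - 1) / k`. The
explicit formula with a Gaussian weight shows that the negative `d(q)` with `log q` close to `log X` contribute at least
`X^c` (`Pool.Agent.H274.Iso`, the general case of `MP_08cfa9_nt.IsobaricEveryScale`); prime powers do not matter as
`c ≥ 1/2`. Finally `tr Sym⁴ f(p) = ω (u² - 3 u + 1)`, `u = |λ(p)|²`, `|ω| = 1`, and `|u² - 3 u + 1| < 1` if and only if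
`0 < u < 1` or `2 < u < 3`.
-/

set_option autoImplicit false

namespace Pool.Agent.Results.MP_a812b2_nt.ExceptionalSymFour

open Pool.Agent.W189.TP (PS)
open Pool.Agent.H274.Iso (IsobaricRep WT)

/-- the Satake parameters `α₀⁴, α₀³ α₁, …, α₁⁴` of the symmetric fourth power -/
def symFour (a : Fin 2 → ℂ) (i : Fin 5) : ℂ := a 0 ^ (4 - (i : ℕ)) * a 1 ^ (i : ℕ)

/-- Properties of a Maass newform `f` with Laplace eigenvalue `1/4 - θ²`, `θ ≥ 0` (or with an eigenvalue `≥ 1/4`, then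
`θ = 0`), and with the Satake parameters `a p`, `p ∉ S`. -/
structure MaassNewform (S : Finset Nat.Primes) (a : PS S → Fin 2 → ℂ) (θ : ℝ) : Prop where
  /-- the Satake parameters are nonzero -/
  ne_zero : ∀ p i, a p i ≠ 0
  /-- `π_p` is unitary -/
  unitary : ∀ p, ∃ τ : Equiv.Perm (Fin 2), ∀ i, a p (τ i) = ((starRingEnd ℂ) (a p i))⁻¹
  /-- the symmetric fourth power is a cuspidal representation of `GL_5`; `Γ_ℝ(s - 8 θ)` is a Gamma factor of its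
  Rankin-Selberg `L`-function -/
  symFour : ∃ (β : Nat.Primes → Fin (5 ^ 2) → ℂ) (κ : Fin (5 ^ 2 - 1) → ℂ),
    IsobaricRep 1 S (fun p => symFour (a p)) β κ ∧ ∃ j, κ j = -((8 * θ : ℝ) : ℂ)

/-- the trace of the symmetric fourth power -/
theorem trace_symFour {a : Fin 2 → ℂ} (h0 : ∀ i, a i ≠ 0)
    (hU : ∃ τ : Equiv.Perm (Fin 2), ∀ i, a (τ i) = ((starRingEnd ℂ) (a i))⁻¹) :
    ‖∑ i, symFour a i‖ ^ 2 = (‖a 0 + a 1‖ ^ 4 - 3 * ‖a 0 + a 1‖ ^ 2 + 1) ^ 2 := by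
  obtain ⟨τ, hτ⟩ := hU
  set s : ℂ := a 0 + a 1 with hs
  set P : ℂ := a 0 * a 1 with hP
  have hP0 : P ≠ 0 := mul_ne_zero (h0 0) (h0 1)
  have c0 : (starRingEnd ℂ) (a 0) ≠ 0 := by simpa using h0 0
  have c1 : (starRingEnd ℂ) (a 1) ≠ 0 := by simpa using h0 1
  have hsum : ((starRingEnd ℂ) (a 0))⁻¹ + ((starRingEnd ℂ) (a 1))⁻¹ = s := by
    have := Equiv.sum_comp τ a
    rw [Fin.sum_univ_two, Fin.sum_univ_two, hτ, hτ] at this
    exact this
  have hprod : ((starRingEnd ℂ) (a 0))⁻¹ * ((starRingEnd ℂ) (a 1))⁻¹ = P := by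
    have := Equiv.prod_comp τ a
    rw [Fin.prod_univ_two, Fin.prod_univ_two, hτ, hτ] at this
    exact this
  have hPn : P * (starRingEnd ℂ) P = 1 := by
    have e : (starRingEnd ℂ) P = (starRingEnd ℂ) (a 0) * (starRingEnd ℂ) (a 1) := by rw [hP, map_mul]
    rw [e, ← hprod]
    field_simp
  have hPn1 : ‖P‖ = 1 := by
    rw [Complex.mul_conj, Complex.normSq_eq_norm_sq] at hPn
    have h4 : ‖P‖ ^ 2 = 1 := by exact_mod_cast hPn
    exact (pow_eq_one_iff_of_nonneg (norm_nonneg _) (by norm_num)).1 h4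
  have hsc : (starRingEnd ℂ) s * P = s := by
    have e1 : (starRingEnd ℂ) s = (starRingEnd ℂ) (a 0) + (starRingEnd ℂ) (a 1) := by rw [hs, map_add]
    rw [e1, ← hprod, ← hsum]
    field_simp
    ring
  have hu : s ^ 2 = P * ((‖s‖ ^ 2 : ℝ) : ℂ) := by
    have e1 : s * (starRingEnd ℂ) s = ((‖s‖ ^ 2 : ℝ) : ℂ) := by
      rw [Complex.mul_conj, Complex.normSq_eq_norm_sq]
    rw [← e1]
    calc s ^ 2 = s * s := sq s
      _ = s * ((starRingEnd ℂ) s * P) := by rw [hsc]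
      _ = _ := by ring
  have htr : ∑ i, symFour a i = P ^ 2 * (((‖s‖ ^ 4 - 3 * ‖s‖ ^ 2 + 1 : ℝ)) : ℂ) := by
    have e1 : ∑ i, symFour a i = s ^ 4 - 3 * s ^ 2 * P + P ^ 2 := by
      unfold symFour
      rw [Fin.sum_univ_five, hs, hP]
      simp
      ring
    have e2 : s ^ 4 = P ^ 2 * ((‖s‖ ^ 4 : ℝ) : ℂ) := by
      have : s ^ 4 = (s ^ 2) ^ 2 := by ring
      rw [this, hu]
      push_cast
      ring
    rw [e1, e2, hu]
    push_cast
    ring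
  rw [htr, norm_mul, norm_pow, hPn1, one_pow, one_mul, Complex.norm_real, Real.norm_eq_abs, sq_abs]

/-- `|u² - 3 u + 1| < 1` -/
theorem small_iff {u : ℝ} : (u ^ 2 - 3 * u + 1) ^ 2 < 1 ↔ (0 < u ∧ u < 1) ∨ (2 < u ∧ u < 3) := by
  have e : (u ^ 2 - 3 * u + 1) ^ 2 - 1 = (u * (u - 3)) * ((u - 1) * (u - 2)) := by ring
  constructor
  · intro h
    have h1 : (u * (u - 3)) * ((u - 1) * (u - 2)) < 0 := by linarith
    rcases mul_neg_iff.1 h1 with ⟨h2, h3⟩ | ⟨h2, h3⟩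
    · rcases mul_neg_iff.1 h3 with ⟨h4, h5⟩ | ⟨h4, h5⟩
      · exfalso
        nlinarith
      · exfalso
        linarith
    · rcases mul_neg_iff.1 h2 with ⟨h4, h5⟩ | ⟨h4, h5⟩
      · rcases mul_pos_iff.1 h3 with ⟨h6, h7⟩ | ⟨h6, h7⟩
        · exact Or.inr ⟨by linarith, by linarith⟩
        · exact Or.inl ⟨h4, by linarith⟩
      · exfalso
        linarith
  · rintro (⟨h1, h2⟩ | ⟨h1, h2⟩)
    · have h3 : 0 < (u * (3 - u)) * ((1 - u) * (2 - u)) := by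
        refine mul_pos (mul_pos h1 (by linarith)) (mul_pos (by linarith) (by linarith))
      nlinarith
    · have h3 : 0 < (u * (3 - u)) * ((u - 1) * (u - 2)) := by
        refine mul_pos (mul_pos (by linarith) (by linarith)) (mul_pos (by linarith) (by linarith))
      nlinarith

open Filter

open scoped Classical in
/-- the number of primes from the sum -/
theorem count_le {S : Finset Nat.Primes} {w : PS S → ℝ} {R : ℝ} (hR : 0 < R) (_hw0 : ∀ p, 0 ≤ w p) (hw : ∀ p, w p ≤ R)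
    {E : PS S → Prop} (hE : ∀ p, ¬ E p → w p = 0) (Y X : ℝ) :
    ∑' p : PS S, (if Y ≤ ((p.1 : ℕ) : ℝ) ∧ ((p.1 : ℕ) : ℝ) ≤ X then w p else 0) ≤
      R * (({p : PS S | Y ≤ ((p.1 : ℕ) : ℝ) ∧ ((p.1 : ℕ) : ℝ) ≤ X ∧ E p}.ncard : ℕ) : ℝ) := by
  have hfin0 : {p : PS S | ((p.1 : ℕ) : ℝ) ≤ X}.Finite := by
    have hinj : Function.Injective fun p : PS S => ((p.1 : ℕ)) := fun p q h => Subtype.ext (Subtype.ext h)
    refine Set.Finite.of_finite_image ((Set.finite_Iic ⌊X⌋₊).subset ?_) hinj.injOn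
    rintro m ⟨p, hp, rfl⟩
    exact Nat.le_floor hp
  have hfin : {p : PS S | Y ≤ ((p.1 : ℕ) : ℝ) ∧ ((p.1 : ℕ) : ℝ) ≤ X ∧ E p}.Finite :=
    hfin0.subset fun p hp => hp.2.1
  rw [tsum_eq_sum (s := hfin.toFinset) (fun p hp => ?_)]
  · have h1 : ∀ p ∈ hfin.toFinset, (if Y ≤ ((p.1 : ℕ) : ℝ) ∧ ((p.1 : ℕ) : ℝ) ≤ X then w p else 0) ≤ R := by
      intro p _
      split_ifs
      · exact hw p
      · exact hR.le
    have h2 := Finset.sum_le_sum h1
    rw [Finset.sum_const, nsmul_eq_mul, mul_comm] at h2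
    rw [Set.ncard_eq_toFinset_card _ hfin]
    exact h2
  · rw [Set.Finite.mem_toFinset] at hp
    split_ifs with h3
    · refine hE p fun h4 => hp ⟨h3.1, h3.2, h4⟩
    · rfl

open scoped Classical in
theorem main {T : Type*} [Fintype T] [Nonempty T] {S : Finset Nat.Primes} {a : T → PS S → Fin 2 → ℂ} {θ : T → ℝ}
    (h : ∀ t, MaassNewform S (a t) (θ t)) {c δ : ℝ} (hδ : 0 < δ)
    (hc : c < 1 / 2 ∨ (∃ t, c < 8 * θ t) ∨ ∃ (t : T) (p : PS S) (i : Fin 2),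
      c < 8 * |Real.logb ((p.1 : ℕ) : ℝ) ‖a t p i‖|) :
    (∀ᶠ X : ℝ in atTop, X ^ c ≤ ∑' x : PS S × ℕ,
      if X ^ (1 - δ) ≤ ((x.1.1 : ℕ) : ℝ) ^ (x.2 + 1) ∧ ((x.1.1 : ℕ) : ℝ) ^ (x.2 + 1) ≤ X then
        max 0 ((Fintype.card T : ℝ) - ∑ t, ‖∑ i, symFour (a t x.1) i ^ (x.2 + 1)‖ ^ 2) else 0) ∧
    (1 / 2 ≤ c → ∀ᶠ X : ℝ in atTop, X ^ c ≤
      (({p : PS S | X ^ (1 - δ) ≤ ((p.1 : ℕ) : ℝ) ∧ ((p.1 : ℕ) : ℝ) ≤ X ∧
        ∑ t, (‖a t p 0 + a t p 1‖ ^ 4 - 3 * ‖a t p 0 + a t p 1‖ ^ 2 + 1) ^ 2 <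
          (Fintype.card T : ℝ)}.ncard : ℕ) : ℝ)) := by
  choose β κ hiso hκ using fun t => (h t).symFour
  have hR : 1 ≤ ∑ _t : T, 1 := by
    rw [Finset.sum_const, smul_eq_mul, mul_one]
    exact Finset.card_pos.2 Finset.univ_nonempty
  have hcard : ((∑ _t : T, 1 : ℕ) : ℝ) = (Fintype.card T : ℝ) := by simp
  have hadm : ∀ c' : ℝ, (c' < 1 / 2 ∨ (∃ t, c' < 8 * θ t) ∨ ∃ (t : T) (p : PS S) (i : Fin 2),
      c' < 8 * |Real.logb ((p.1 : ℕ) : ℝ) ‖a t p i‖|) →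
      Pool.Agent.H274.Iso.AdmT (fun _ : T => 1) S (fun t p => symFour (a t p)) β κ c' := by
    intro c' hc'
    rcases hc' with hc' | ⟨t, hc'⟩ | ⟨t, p, i, hc'⟩
    · exact Or.inl hc'
    · obtain ⟨j, hj⟩ := hκ t
      exact Or.inr (Or.inr (Or.inr (Or.inl ⟨t, j, 8 * θ t, hj, hc'⟩)))
    · refine Or.inr (Or.inl ?_)
      obtain ⟨i', hi'⟩ : ∃ i' : Fin 5, symFour (a t p) i' = a t p i ^ 4 := by
        fin_cases i
        · exact ⟨0, by simp [symFour]⟩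
        · exact ⟨4, by simp [symFour]⟩
      refine ⟨t, p, i', ?_⟩
      show c' < 2 * |Real.logb ((p.1 : ℕ) : ℝ) ‖symFour (a t p) i'‖|
      rw [hi', norm_pow, Real.logb_pow]
      have : 2 * |((4 : ℕ) : ℝ) * Real.logb ((p.1 : ℕ) : ℝ) ‖a t p i‖| =
          8 * |Real.logb ((p.1 : ℕ) : ℝ) ‖a t p i‖| := by
        rw [abs_mul]
        norm_num
        ring
      rw [this]
      exact hc'
  have hfin : ∀ c' : ℝ, (c' < 1 / 2 ∨ (∃ t, c' < 8 * θ t) ∨ ∃ (t : T) (p : PS S) (i : Fin 2),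
      c' < 8 * |Real.logb ((p.1 : ℕ) : ℝ) ‖a t p i‖|) → _ := fun c' hc' =>
    Pool.Agent.H274.Iso.fin_r hR (W := WT (fun t p => symFour (a t p)))
      (fun x => Finset.sum_nonneg fun t _ => by positivity)
      (Pool.Agent.H274.Iso.fam_key hiso (fun t => by norm_num) (hadm c' hc') hδ)
  refine ⟨?_, fun hc2 => ?_⟩
  · have h1 := (hfin c hc).1
    rw [hcard] at h1
    exact h1
  · obtain ⟨c₁, hc₁, hcc⟩ : ∃ c₁ : ℝ, c < c₁ ∧ (c₁ < 1 / 2 ∨ (∃ t, c₁ < 8 * θ t) ∨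
        ∃ (t : T) (p : PS S) (i : Fin 2), c₁ < 8 * |Real.logb ((p.1 : ℕ) : ℝ) ‖a t p i‖|) := by
      rcases hc with hc | ⟨t, hc⟩ | ⟨t, p, i, hc⟩
      · obtain ⟨c₁, g1, g2⟩ := exists_between hc
        exact ⟨c₁, g1, Or.inl g2⟩
      · obtain ⟨c₁, g1, g2⟩ := exists_between hc
        exact ⟨c₁, g1, Or.inr (Or.inl ⟨t, g2⟩)⟩
      · obtain ⟨c₁, g1, g2⟩ := exists_between hc
        exact ⟨c₁, g1, Or.inr (Or.inr ⟨t, p, i, g2⟩)⟩
    have h1 := (hfin c₁ hcc).2.1 (by linarith)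
    have hR0 : (0 : ℝ) < (Fintype.card T : ℝ) := by exact_mod_cast Fintype.card_pos
    have ht : Tendsto (fun X : ℝ => X ^ (c₁ - c)) atTop atTop := tendsto_rpow_atTop (by linarith)
    filter_upwards [h1, ht.eventually_ge_atTop (Fintype.card T : ℝ), eventually_gt_atTop 0] with X g1 g2 g3
    rw [hcard] at g1
    have hW : ∀ p : PS S, WT (fun t p => symFour (a t p)) (p, 0) =
        ∑ t, (‖a t p 0 + a t p 1‖ ^ 4 - 3 * ‖a t p 0 + a t p 1‖ ^ 2 + 1) ^ 2 := by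
      intro p
      unfold WT
      refine Finset.sum_congr rfl fun t _ => ?_
      simp only [zero_add, pow_one]
      exact trace_symFour ((h t).ne_zero p) ((h t).unitary p)
    simp only [hW] at g1
    have g4 := count_le (S := S) (w := fun p => max 0 ((Fintype.card T : ℝ) -
      ∑ t, (‖a t p 0 + a t p 1‖ ^ 4 - 3 * ‖a t p 0 + a t p 1‖ ^ 2 + 1) ^ 2)) hR0 (fun p => le_max_left _ _)
      (fun p => max_le hR0.le (sub_le_self _ (Finset.sum_nonneg fun t _ => sq_nonneg _)))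
      (E := fun p => ∑ t, (‖a t p 0 + a t p 1‖ ^ 4 - 3 * ‖a t p 0 + a t p 1‖ ^ 2 + 1) ^ 2 <
        (Fintype.card T : ℝ)) (fun p hp => max_eq_left (by linarith [not_lt.1 hp])) (X ^ (1 - δ)) X
    have g5 := g1.trans g4
    have g6 : X ^ c₁ = X ^ (c₁ - c) * X ^ c := by rw [← Real.rpow_add g3, sub_add_cancel]
    have g7 : 0 < X ^ c := by positivity
    rw [g6] at g5
    refine le_of_mul_le_mul_left ?_ hR0
    exact (mul_le_mul_of_nonneg_right g2 g7.le).trans g5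

open scoped Classical in
/-- **Exceptional eigenvalues and small Hecke eigenvalues at every scale.** `f_t`, `t ∈ T`, are Maass newforms with
Laplace eigenvalues `1/4 - θ_t²` and Satake parameters `a t p`, `p ∉ S`. -/
theorem result {T : Type*} [Fintype T] [Nonempty T] {S : Finset Nat.Primes} {a : T → PS S → Fin 2 → ℂ} {θ : T → ℝ}
    (h : ∀ t, MaassNewform S (a t) (θ t)) {c δ : ℝ} (hδ : 0 < δ)
    (hc : c < 1 / 2 ∨ (∃ t, c < 8 * θ t) ∨ ∃ (t : T) (p : PS S) (i : Fin 2),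
      c < 8 * |Real.logb ((p.1 : ℕ) : ℝ) ‖a t p i‖|) :
    (∃ X₀ : ℝ, ∀ X : ℝ, X₀ ≤ X → X ^ c ≤ ∑' x : PS S × ℕ,
      if X ^ (1 - δ) ≤ ((x.1.1 : ℕ) : ℝ) ^ (x.2 + 1) ∧ ((x.1.1 : ℕ) : ℝ) ^ (x.2 + 1) ≤ X then
        max 0 ((Fintype.card T : ℝ) - ∑ t, ‖∑ i, symFour (a t x.1) i ^ (x.2 + 1)‖ ^ 2) else 0) ∧
    (1 / 2 ≤ c → ∃ X₀ : ℝ, ∀ X : ℝ, X₀ ≤ X → X ^ c ≤
      (({p : PS S | X ^ (1 - δ) ≤ ((p.1 : ℕ) : ℝ) ∧ ((p.1 : ℕ) : ℝ) ≤ X ∧
        ∑ t, (‖a t p 0 + a t p 1‖ ^ 4 - 3 * ‖a t p 0 + a t p 1‖ ^ 2 + 1) ^ 2 <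
          (Fintype.card T : ℝ)}.ncard : ℕ) : ℝ)) ∧
    ∀ t : T, 1 / 2 ≤ c → c < 8 * θ t → ∃ X₀ : ℝ, ∀ X : ℝ, X₀ ≤ X → X ^ c ≤
      (({p : PS S | X ^ (1 - δ) ≤ ((p.1 : ℕ) : ℝ) ∧ ((p.1 : ℕ) : ℝ) ≤ X ∧
        ((0 < ‖a t p 0 + a t p 1‖ ∧ ‖a t p 0 + a t p 1‖ < 1) ∨
          (√2 < ‖a t p 0 + a t p 1‖ ∧ ‖a t p 0 + a t p 1‖ < √3))}.ncard : ℕ) : ℝ) := by
  obtain ⟨h1, h2⟩ := main h hδ hc
  refine ⟨eventually_atTop.1 h1, fun hc2 => eventually_atTop.1 (h2 hc2), fun t hc2 hct => ?_⟩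
  obtain ⟨-, h3⟩ := main (T := Unit) (a := fun _ => a t) (θ := fun _ => θ t) (fun _ => h t) (c := c) hδ
    (Or.inr (Or.inl ⟨(), hct⟩))
  refine eventually_atTop.1 ?_
  filter_upwards [h3 hc2] with X hX
  refine hX.trans (le_of_eq ?_)
  congr 2
  ext p
  simp only [Finset.univ_unique, Finset.sum_const, Finset.card_singleton, one_smul, Fintype.card_unit, Nat.cast_one,
    Set.mem_ofPred_eq]
  have hn : 0 ≤ ‖a t p 0 + a t p 1‖ := norm_nonneg _
  have e4 : ‖a t p 0 + a t p 1‖ ^ 4 = (‖a t p 0 + a t p 1‖ ^ 2) ^ 2 := by ring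
  rw [e4, small_iff]
  have k0 : 0 < ‖a t p 0 + a t p 1‖ ^ 2 ↔ 0 < ‖a t p 0 + a t p 1‖ := by
    constructor
    · intro hh
      exact lt_of_le_of_ne hn fun h0 => by rw [← h0] at hh; norm_num at hh
    · intro hh
      positivity
  have k1 : ‖a t p 0 + a t p 1‖ ^ 2 < 1 ↔ ‖a t p 0 + a t p 1‖ < 1 := by
    rw [sq_lt_one_iff₀ hn]
  have k2 : 2 < ‖a t p 0 + a t p 1‖ ^ 2 ↔ √2 < ‖a t p 0 + a t p 1‖ := by
    constructor
    · intro hh
      rw [← Real.sqrt_sq hn]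
      exact Real.sqrt_lt_sqrt (by norm_num) hh
    · intro hh
      have h5 := Real.sq_sqrt (show (0 : ℝ) ≤ 2 by norm_num)
      have h6 := Real.sqrt_nonneg 2
      nlinarith
  have k3 : ‖a t p 0 + a t p 1‖ ^ 2 < 3 ↔ ‖a t p 0 + a t p 1‖ < √3 := (Real.lt_sqrt hn).symm
  rw [k0, k1, k2, k3]

end Pool.Agent.Results.MP_a812b2_nt.ExceptionalSymFour
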