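import Mathlib
import Pool.Agent.H274.Iso4

/-!
# Selberg's eigenvalue conjecture: exceptional eigenvalues and the balance of large and small values of `tr Sym⁴`

Let `f_t`, `t ∈ T` (`T` finite, not empty), be Maass newforms of weight `0` for congruence subgroups, unramified outside
the finite set `S` of primes, with Laplace eigenvalues `1/4 - θ_t²`, `θ_t ≥ 0` (`θ_t = 0` stands for all eigenvalues
`≥ 1/4`). Let `W(p^k) = ∑_t |tr Sym⁴ f_t (p^k)|²`, whose mean value over the primes is `|T|`; for primes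
`|tr Sym⁴ f_t (p)| = ||λ_t(p)|⁴ - 3 |λ_t(p)|² + 1|`. The *excess* and the *deficiency* are

  `E(X) = ∑_{p^k ≤ X} max(0, W(p^k) - |T|)`,  `D(X) = ∑_{p^k ≤ X} max(0, |T| - W(p^k))`, `p ∉ S`.

Let `b` be the least upper bound of the real parts of the zeros and poles of the meromorphic continuation of
`∏_t L(s, Sym⁴ f_t × Sym⁴ f_t~) / ζ(s)^{|T|}` (without the Euler factors in `S`). Then `1/2 ≤ b ≤ 1`, **`8 θ_t ≤ b`** for
all `t`, and

* for every `ε > 0` and **all** large `X`: `X^{b-ε} ≤ D(X)`, `E(X) ≤ X^ε D(X^{1+ε})`, and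
  `D(X) ≤ X^ε (X^b + E(X^{1+ε}))`; also `X^c ≤ D(X)` for all large `X` if `c < 8 θ_{t,p}`, where
  `p^{θ_{t,p}} = max |α_{t,i,p}|`;
* if `b > 1/2`, then for every `c < b`, `δ > 0` and all large `X` at least `X^c` primes `p ∈ [X^{1-δ}, X]` satisfy
  `∑_t (|λ_t(p)|⁴ - 3 |λ_t(p)|² + 1)² < |T|`;
* for each `c`: `D(X) ≤ X^{c+o(1)}` if and only if `b ≤ c` and `E(X) ≤ X^{c+o(1)}`, and then all eigenvalues satisfy
  **`1/4 - θ_t² ≥ 1/4 - c²/64`**.

So the exponent of the deficiency is exactly the larger one of `b` and the exponent of the excess, and an exceptional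
eigenvalue is visible in it: `8 θ_t ≤ b`. The lower bounds `D(X) ≥ X^c`, `c < 8 θ_t` are known from
`MP_a812b2_nt.ExceptionalSymFour`; the upper bounds for `D` and `E`, and the role of `b`, are new for Selberg's problem.
-/

set_option autoImplicit false

namespace Pool.Agent.Results.MP_a812b2_nt.SymFourBalance

open Filter
open Pool.Agent.W189.TP (PS)
open Pool.Agent.H274.Iso (IsobaricRep SingD WT ExcY DefY)

/-- the Satake parameters `α₀⁴, α₀³ α₁, …, α₁⁴` of the symmetric fourth power -/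
def symFour (a : Fin 2 → ℂ) (i : Fin 5) : ℂ := a 0 ^ (4 - (i : ℕ)) * a 1 ^ (i : ℕ)

/-- Properties of a Maass newform `f` with Laplace eigenvalue `1/4 - θ²`, `θ ≥ 0` (or with an eigenvalue `≥ 1/4`, then
`θ = 0`), and with the Satake parameters `a p`, `p ∉ S`. -/
structure MaassNewform (S : Finset Nat.Primes) (a : PS S → Fin 2 → ℂ) (θ : ℝ) : Prop where
  /-- the Satake parameters are nonzero -/
  ne_zero : ∀ p i, a p i ≠ 0
  /-- `π_p` is unitary -/
  unitary : ∀ p, ∃ τ : Equiv.Perm (Fin 2), ∀ i, a p (τ i) = ((starRingEnd ℂ) (a p i))⁻¹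
  /-- the symmetric fourth power is a cuspidal representation of `GL_5`; `Γ_ℝ(s - 8 θ)` is a Gamma factor of its
  Rankin-Selberg `L`-function -/
  symFour : ∃ (β : Nat.Primes → Fin (5 ^ 2) → ℂ) (κ : Fin (5 ^ 2 - 1) → ℂ),
    IsobaricRep 1 S (fun p => symFour (a p)) β κ ∧ ∃ j, κ j = -((8 * θ : ℝ) : ℂ)

section defs

variable {T : Type*} [Fintype T] {S : Finset Nat.Primes}

/-- `W(p^k) = ∑_t |tr Sym⁴ f_t (p^k)|²` -/
noncomputable def W (a : T → PS S → Fin 2 → ℂ) (p : PS S) (k : ℕ) : ℝ :=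
  ∑ t, ‖∑ i, symFour (a t p) i ^ k‖ ^ 2

open scoped Classical in
/-- the excess `E(X) = ∑_{p^k ≤ X} max(0, W(p^k) - |T|)`, `p ∉ S`, `k ≥ 1` -/
noncomputable def excess (a : T → PS S → Fin 2 → ℂ) (X : ℝ) : ℝ :=
  ∑' x : PS S × ℕ, if ((x.1.1 : ℕ) : ℝ) ^ (x.2 + 1) ≤ X then
    max 0 (W a x.1 (x.2 + 1) - Fintype.card T) else 0

open scoped Classical in
/-- the deficiency `D(X) = ∑_{p^k ≤ X} max(0, |T| - W(p^k))`, `p ∉ S`, `k ≥ 1` -/
noncomputable def deficiency (a : T → PS S → Fin 2 → ℂ) (X : ℝ) : ℝ :=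
  ∑' x : PS S × ℕ, if ((x.1.1 : ℕ) : ℝ) ^ (x.2 + 1) ≤ X then
    max 0 (Fintype.card T - W a x.1 (x.2 + 1)) else 0

/-- the meromorphic continuation of `∏_t L(s, Sym⁴ f_t × Sym⁴ f_t~) / ζ(s)^{|T|}`, without the Euler factors in `S`, has a
zero or a pole of real part `> c`; the first factor is `exp ∑ W(p^k) / (k p^{ks})` for `Re s > 1` -/
def ZeroPole (a : T → PS S → Fin 2 → ℂ) (c : ℝ) : Prop :=
  ∃ (F : ℂ → ℂ) (ρ : ℂ), MeromorphicOn F Set.univ ∧
    (∀ s : ℂ, 1 < s.re → F s * (riemannZeta s * ∏ p ∈ S, (1 - ((p : ℕ) : ℂ) ^ (-s))) ^ Fintype.card T =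
      Complex.exp (∑' x : PS S × ℕ, ((W a x.1 (x.2 + 1) / ((x.2 : ℝ) + 1) : ℝ) : ℂ) *
        (((x.1.1 : ℕ) : ℂ) ^ (-s)) ^ (x.2 + 1))) ∧
    c < ρ.re ∧ meromorphicOrderAt F ρ ≠ 0

end defs

/-- the trace of the symmetric fourth power -/
theorem trace_symFour {a : Fin 2 → ℂ} (h0 : ∀ i, a i ≠ 0)
    (hU : ∃ τ : Equiv.Perm (Fin 2), ∀ i, a (τ i) = ((starRingEnd ℂ) (a i))⁻¹) :
    ‖∑ i, symFour a i‖ ^ 2 = (‖a 0 + a 1‖ ^ 4 - 3 * ‖a 0 + a 1‖ ^ 2 + 1) ^ 2 := by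
  obtain ⟨τ, hτ⟩ := hU
  set s : ℂ := a 0 + a 1 with hs
  set P : ℂ := a 0 * a 1 with hP
  have hP0 : P ≠ 0 := mul_ne_zero (h0 0) (h0 1)
  have c0 : (starRingEnd ℂ) (a 0) ≠ 0 := by simpa using h0 0
  have c1 : (starRingEnd ℂ) (a 1) ≠ 0 := by simpa using h0 1
  have hsum : ((starRingEnd ℂ) (a 0))⁻¹ + ((starRingEnd ℂ) (a 1))⁻¹ = s := by
    have := Equiv.sum_comp τ a
    rw [Fin.sum_univ_two, Fin.sum_univ_two, hτ, hτ] at this
    exact this
  have hprod : ((starRingEnd ℂ) (a 0))⁻¹ * ((starRingEnd ℂ) (a 1))⁻¹ = P := by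
    have := Equiv.prod_comp τ a
    rw [Fin.prod_univ_two, Fin.prod_univ_two, hτ, hτ] at this
    exact this
  have hPn : P * (starRingEnd ℂ) P = 1 := by
    have e : (starRingEnd ℂ) P = (starRingEnd ℂ) (a 0) * (starRingEnd ℂ) (a 1) := by rw [hP, map_mul]
    rw [e, ← hprod]
    field_simp
  have hPn1 : ‖P‖ = 1 := by
    rw [Complex.mul_conj, Complex.normSq_eq_norm_sq] at hPn
    have h4 : ‖P‖ ^ 2 = 1 := by exact_mod_cast hPn
    exact (pow_eq_one_iff_of_nonneg (norm_nonneg _) (by norm_num)).1 h4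
  have hsc : (starRingEnd ℂ) s * P = s := by
    have e1 : (starRingEnd ℂ) s = (starRingEnd ℂ) (a 0) + (starRingEnd ℂ) (a 1) := by rw [hs, map_add]
    rw [e1, ← hprod, ← hsum]
    field_simp
    ring
  have hu : s ^ 2 = P * ((‖s‖ ^ 2 : ℝ) : ℂ) := by
    have e1 : s * (starRingEnd ℂ) s = ((‖s‖ ^ 2 : ℝ) : ℂ) := by
      rw [Complex.mul_conj, Complex.normSq_eq_norm_sq]
    rw [← e1]
    calc s ^ 2 = s * s := sq s
      _ = s * ((starRingEnd ℂ) s * P) := by rw [hsc]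
      _ = _ := by ring
  have htr : ∑ i, symFour a i = P ^ 2 * (((‖s‖ ^ 4 - 3 * ‖s‖ ^ 2 + 1 : ℝ)) : ℂ) := by
    have e1 : ∑ i, symFour a i = s ^ 4 - 3 * s ^ 2 * P + P ^ 2 := by
      unfold symFour
      rw [Fin.sum_univ_five, hs, hP]
      simp
      ring
    have e2 : s ^ 4 = P ^ 2 * ((‖s‖ ^ 4 : ℝ) : ℂ) := by
      have : s ^ 4 = (s ^ 2) ^ 2 := by ring
      rw [this, hu]
      push_cast
      ring
    rw [e1, e2, hu]
    push_cast
    ring
  rw [htr, norm_mul, norm_pow, hPn1, one_pow, one_mul, Complex.norm_real, Real.norm_eq_abs, sq_abs]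

open scoped Classical in
/-- the number of primes from the sum -/
theorem count_le {S : Finset Nat.Primes} {w : PS S → ℝ} {R : ℝ} (hR : 0 < R) (hw : ∀ p, w p ≤ R)
    {E : PS S → Prop} (hE : ∀ p, ¬ E p → w p = 0) (Y X : ℝ) :
    ∑' p : PS S, (if Y ≤ ((p.1 : ℕ) : ℝ) ∧ ((p.1 : ℕ) : ℝ) ≤ X then w p else 0) ≤
      R * (({p : PS S | Y ≤ ((p.1 : ℕ) : ℝ) ∧ ((p.1 : ℕ) : ℝ) ≤ X ∧ E p}.ncard : ℕ) : ℝ) := by
  have hfin0 : {p : PS S | ((p.1 : ℕ) : ℝ) ≤ X}.Finite := by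
    have hinj : Function.Injective fun p : PS S => ((p.1 : ℕ)) := fun p q h => Subtype.ext (Subtype.ext h)
    refine Set.Finite.of_finite_image ((Set.finite_Iic ⌊X⌋₊).subset ?_) hinj.injOn
    rintro m ⟨p, hp, rfl⟩
    exact Nat.le_floor hp
  have hfin : {p : PS S | Y ≤ ((p.1 : ℕ) : ℝ) ∧ ((p.1 : ℕ) : ℝ) ≤ X ∧ E p}.Finite :=
    hfin0.subset fun p hp => hp.2.1
  rw [tsum_eq_sum (s := hfin.toFinset) (fun p hp => ?_)]
  · have h1 : ∀ p ∈ hfin.toFinset, (if Y ≤ ((p.1 : ℕ) : ℝ) ∧ ((p.1 : ℕ) : ℝ) ≤ X then w p else 0) ≤ R := by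
      intro p _
      split_ifs
      · exact hw p
      · exact hR.le
    have h2 := Finset.sum_le_sum h1
    rw [Finset.sum_const, nsmul_eq_mul, mul_comm] at h2
    rw [Set.ncard_eq_toFinset_card _ hfin]
    exact h2
  · rw [Set.Finite.mem_toFinset] at hp
    split_ifs with h3
    · refine hE p fun h4 => hp ⟨h3.1, h3.2, h4⟩
    · rfl

open scoped Classical in
/-- **Exceptional eigenvalues, and excess and deficiency of the symmetric fourth power at every scale.** -/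
theorem result {T : Type*} [Fintype T] [Nonempty T] {S : Finset Nat.Primes} {a : T → PS S → Fin 2 → ℂ} {θ : T → ℝ}
    (h : ∀ t, MaassNewform S (a t) (θ t)) :
    ∃ b : ℝ, 1 / 2 ≤ b ∧ b ≤ 1 ∧ (∀ c : ℝ, ZeroPole a c ↔ c < b) ∧ (∀ t, 8 * θ t ≤ b) ∧
      (∀ ε : ℝ, 0 < ε → ∀ᶠ X : ℝ in atTop, X ^ (b - ε) ≤ deficiency a X ∧
        excess a X ≤ X ^ ε * deficiency a (X ^ (1 + ε)) ∧
        deficiency a X ≤ X ^ ε * (X ^ b + excess a (X ^ (1 + ε)))) ∧
      (∀ (t : T) (p : PS S) (i : Fin 2) (c : ℝ), c < 8 * |Real.logb ((p.1 : ℕ) : ℝ) ‖a t p i‖| →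
        ∀ᶠ X : ℝ in atTop, X ^ c ≤ deficiency a X) ∧
      (1 / 2 < b → ∀ c δ : ℝ, c < b → 0 < δ → ∀ᶠ X : ℝ in atTop, X ^ c ≤
        (({p : PS S | X ^ (1 - δ) ≤ ((p.1 : ℕ) : ℝ) ∧ ((p.1 : ℕ) : ℝ) ≤ X ∧
          ∑ t, (‖a t p 0 + a t p 1‖ ^ 4 - 3 * ‖a t p 0 + a t p 1‖ ^ 2 + 1) ^ 2 <
            (Fintype.card T : ℝ)}.ncard : ℕ) : ℝ)) ∧
      (∀ c : ℝ, ((∀ ε : ℝ, 0 < ε → ∀ᶠ X : ℝ in atTop, deficiency a X ≤ X ^ (c + ε)) ↔
        b ≤ c ∧ ∀ ε : ℝ, 0 < ε → ∀ᶠ X : ℝ in atTop, excess a X ≤ X ^ (c + ε)) ∧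
        ((∀ ε : ℝ, 0 < ε → ∀ᶠ X : ℝ in atTop, deficiency a X ≤ X ^ (c + ε)) →
          ∀ t, 0 ≤ θ t → 1 / 4 - c ^ 2 / 64 ≤ 1 / 4 - θ t ^ 2)) := by
  choose β κ hiso hκ using fun t => (h t).symFour
  have hR : ∑ _t : T, 1 = Fintype.card T := by simp
  have hr : ∀ t : T, 1 < 5 ^ 2 := fun t => by norm_num
  obtain ⟨M, ⟨eM⟩⟩ : ∃ M : ℕ, Nonempty (Fin M ≃ Σ _t : T, Fin (5 ^ 2)) := ⟨_, ⟨(Fintype.equivFin _).symm⟩⟩
  obtain ⟨N, ⟨eN⟩⟩ : ∃ N : ℕ, Nonempty (Fin N ≃ Σ _t : T, Fin (5 ^ 2 - 1)) := ⟨_, ⟨(Fintype.equivFin _).symm⟩⟩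
  have hN : 1 ≤ N := by
    obtain ⟨t⟩ := ‹Nonempty T›
    exact (eN.symm ⟨t, ⟨0, by norm_num⟩⟩).pos
  have hdat := Pool.Agent.H274.Iso.dat_fam (n := fun _ : T => 5) (r := fun _ : T => 1) hiso eM eN
  obtain ⟨b, hb2, hb1, hbS, hlaw⟩ := Pool.Agent.H274.Iso.law hN hdat
  simp only [hR] at hbS hlaw
  -- the sums
  have hWT : ∀ x : PS S × ℕ, WT (n := fun _ : T => 5) (fun t p => symFour (a t p)) x = W a x.1 (x.2 + 1) :=
    fun x => rfl
  have hE : ∀ X : ℝ, 0 < X → excess a X =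
      ExcY (Fintype.card T) (WT (n := fun _ : T => 5) (fun t p => symFour (a t p))) (Real.log X) := by
    intro X hX
    unfold excess ExcY Pool.Agent.Y816.GL3T.SS
    refine tsum_congr fun x => ?_
    simp only [Pool.Agent.TH949.TX.LL_le hX, hWT]
  have hD : ∀ X : ℝ, 0 < X → deficiency a X =
      DefY (Fintype.card T) (WT (n := fun _ : T => 5) (fun t p => symFour (a t p))) (Real.log X) := by
    intro X hX
    unfold deficiency DefY Pool.Agent.Y816.GL3T.SS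
    refine tsum_congr fun x => ?_
    simp only [Pool.Agent.TH949.TX.LL_le hX, hWT]
  have hsing : ∀ c : ℝ, ZeroPole a c ↔
      SingD (Fintype.card T) (WT (n := fun _ : T => 5) (fun t p => symFour (a t p))) c := fun c => Iff.rfl
  have hlaw' : ∀ ε : ℝ, 0 < ε → ∀ᶠ X : ℝ in atTop,
      X ^ (b - ε) ≤ deficiency a X ∧
      excess a X ≤ X ^ ε * deficiency a (X ^ (1 + ε)) ∧
      deficiency a X ≤ X ^ ε * (X ^ b + excess a (X ^ (1 + ε))) := by
    intro ε hε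
    filter_upwards [Real.tendsto_log_atTop.eventually (hlaw ε hε), eventually_gt_atTop 0] with X hX hX0
    have e1 : ∀ c : ℝ, Real.exp (c * Real.log X) = X ^ c := fun c => by
      rw [Real.rpow_def_of_pos hX0, mul_comm]
    have e2 : (1 + ε) * Real.log X = Real.log (X ^ (1 + ε)) := (Real.log_rpow hX0 _).symm
    have hX1 : 0 < X ^ (1 + ε) := by positivity
    rw [e1, e1, e1, e2] at hX
    rw [hE X hX0, hE _ hX1, hD X hX0, hD _ hX1]
    exact hX
  have hθ : ∀ t, 8 * θ t ≤ b := by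
    intro t
    rcases le_or_gt (8 * θ t) 0 with h0 | h0
    · linarith
    · obtain ⟨j, hj⟩ := hκ t
      obtain ⟨G, Ξ, Q, ω, hG, hΞ, hQ, hω, hEE, hgr, hid, hfe⟩ := hdat.continuation
      refine le_of_forall_lt fun c hcx => (hbS c).1 ?_
      rw [← hR]
      refine Pool.Agent.H274.Iso.sing_zero hdat.nonneg hdat.summable hG hEE h0 hcx ?_
      rw [Pool.Agent.H274.Iso.gam_zero_r hQ hG hΞ hid (j := eN.symm ⟨t, j⟩) ?_ h0, zero_mul]
      show κ (eN (eN.symm ⟨t, j⟩)).1 (eN (eN.symm ⟨t, j⟩)).2 = _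
      rw [Equiv.apply_symm_apply]
      exact hj
  have hbc : ∀ c : ℝ, (∀ ε : ℝ, 0 < ε → ∀ᶠ X : ℝ in atTop, deficiency a X ≤ X ^ (c + ε)) → b ≤ c := by
    intro c hc
    by_contra hlt
    push Not at hlt
    have hε : 0 < (b - c) / 3 := by linarith
    obtain ⟨X, ⟨h1, -⟩, h2, h3⟩ := ((hlaw' _ hε).and ((hc _ hε).and (eventually_gt_atTop 1))).exists
    have h4 : X ^ (c + (b - c) / 3) < X ^ (b - (b - c) / 3) :=
      Real.rpow_lt_rpow_of_exponent_lt h3 (by linarith)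
    linarith
  refine ⟨b, hb2, hb1, fun c => (hsing c).trans (hbS c), hθ, hlaw', fun t p i c hc => ?_, fun hb c δ hc hδ => ?_,
    fun c => ⟨⟨fun hc => ⟨hbc c hc, fun ε hε => ?_⟩, fun hc ε hε => ?_⟩, fun hc t ht => ?_⟩⟩
  · -- a violation at `p`
    have hadm : Pool.Agent.H274.Iso.AdmT (n := fun _ : T => 5) (fun _ : T => 1) S (fun t p => symFour (a t p)) β κ c := by
      refine Or.inr (Or.inl ?_)
      obtain ⟨i', hi'⟩ : ∃ i' : Fin 5, symFour (a t p) i' = a t p i ^ 4 := by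
        fin_cases i
        · exact ⟨0, by simp [symFour]⟩
        · exact ⟨4, by simp [symFour]⟩
      refine ⟨t, p, i', ?_⟩
      show c < 2 * |Real.logb ((p.1 : ℕ) : ℝ) ‖symFour (a t p) i'‖|
      rw [hi', norm_pow, Real.logb_pow]
      have : 2 * |((4 : ℕ) : ℝ) * Real.logb ((p.1 : ℕ) : ℝ) ‖a t p i‖| =
          8 * |Real.logb ((p.1 : ℕ) : ℝ) ‖a t p i‖| := by
        rw [abs_mul]
        norm_num
        ring
      rw [this]
      exact hc
    obtain ⟨h1, -, -⟩ := Pool.Agent.H274.Iso.fin_r (by rw [hR]; exact Fintype.card_pos)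
      (W := WT (n := fun _ : T => 5) (fun t p => symFour (a t p))) (fun x => Finset.sum_nonneg fun t _ => by positivity)
      (Pool.Agent.H274.Iso.fam_key hiso hr hadm one_pos)
    rw [hR] at h1
    filter_upwards [h1] with X hX
    refine hX.trans (le_of_eq ?_)
    unfold deficiency
    refine tsum_congr fun x => ?_
    have h2 : X ^ ((1 : ℝ) - 1) ≤ ((x.1.1 : ℕ) : ℝ) ^ (x.2 + 1) := by
      rw [sub_self, Real.rpow_zero]
      exact one_le_pow₀ (by exact_mod_cast x.1.1.2.one_lt.le)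
    simp only [h2, true_and]
    rfl
  · -- primes
    obtain ⟨c₁, hc1, hc2⟩ : ∃ c₁ : ℝ, max c (1 / 2) < c₁ ∧ c₁ < b := exists_between (max_lt hc hb)
    have hadm : Pool.Agent.H274.Iso.AdmT (n := fun _ : T => 5) (fun _ : T => 1) S (fun t p => symFour (a t p)) β κ c₁ := by
      refine Or.inr (Or.inr (Or.inr (Or.inr ?_)))
      rw [hR]
      exact (hbS c₁).2 hc2
    obtain ⟨-, h1, -⟩ := Pool.Agent.H274.Iso.fin_r (by rw [hR]; exact Fintype.card_pos)
      (W := WT (n := fun _ : T => 5) (fun t p => symFour (a t p))) (fun x => Finset.sum_nonneg fun t _ => by positivity)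
      (Pool.Agent.H274.Iso.fam_key hiso hr hadm hδ)
    have h1' := h1 ((le_max_right _ _).trans hc1.le)
    rw [hR] at h1'
    have hcc : c < c₁ := (le_max_left _ _).trans_lt hc1
    have hR0 : (0 : ℝ) < (Fintype.card T : ℝ) := by exact_mod_cast Fintype.card_pos
    have ht : Tendsto (fun X : ℝ => X ^ (c₁ - c)) atTop atTop := tendsto_rpow_atTop (by linarith)
    filter_upwards [h1', ht.eventually_ge_atTop (Fintype.card T : ℝ), eventually_gt_atTop 0] with X g1 g2 g3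
    have hW : ∀ p : PS S, WT (n := fun _ : T => 5) (fun t p => symFour (a t p)) (p, 0) =
        ∑ t, (‖a t p 0 + a t p 1‖ ^ 4 - 3 * ‖a t p 0 + a t p 1‖ ^ 2 + 1) ^ 2 := by
      intro p
      unfold WT
      refine Finset.sum_congr rfl fun t _ => ?_
      simp only [zero_add, pow_one]
      exact trace_symFour ((h t).ne_zero p) ((h t).unitary p)
    simp only [hW] at g1
    have g4 := count_le (S := S) (w := fun p => max 0 ((Fintype.card T : ℝ) -
      ∑ t, (‖a t p 0 + a t p 1‖ ^ 4 - 3 * ‖a t p 0 + a t p 1‖ ^ 2 + 1) ^ 2)) hR0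
      (fun p => max_le hR0.le (sub_le_self _ (Finset.sum_nonneg fun t _ => sq_nonneg _)))
      (E := fun p => ∑ t, (‖a t p 0 + a t p 1‖ ^ 4 - 3 * ‖a t p 0 + a t p 1‖ ^ 2 + 1) ^ 2 <
        (Fintype.card T : ℝ)) (fun p hp => max_eq_left (by linarith [not_lt.1 hp])) (X ^ (1 - δ)) X
    have g5 := g1.trans g4
    have g6 : X ^ c₁ = X ^ (c₁ - c) * X ^ c := by rw [← Real.rpow_add g3, sub_add_cancel]
    have g7 : 0 < X ^ c := by positivity
    rw [g6] at g5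
    refine le_of_mul_le_mul_left ?_ hR0
    exact (mul_le_mul_of_nonneg_right g2 g7.le).trans g5
  · -- the excess
    have hbc' := hbc c hc
    obtain ⟨η, hη, hη2⟩ : ∃ η : ℝ, 0 < η ∧ η + (c + η) * (1 + η) ≤ c + ε := by
      have hc0 : 0 < c := by linarith
      refine ⟨min 1 (ε / (3 + c)), lt_min one_pos (by positivity), ?_⟩
      set η := min 1 (ε / (3 + c))
      have h1 : η ≤ 1 := min_le_left _ _
      have h2 : η ≤ ε / (3 + c) := min_le_right _ _
      have h3 : 0 < η := lt_min one_pos (by positivity)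
      have h4 : η * (3 + c) ≤ ε := by rwa [le_div_iff₀ (by positivity)] at h2
      nlinarith
    have h5 : Tendsto (fun X : ℝ => X ^ (1 + η)) atTop atTop := tendsto_rpow_atTop (by linarith)
    filter_upwards [hlaw' η hη, h5.eventually (hc η hη), eventually_gt_atTop 1] with X h1 h2 h3
    have h0 : 0 < X := by linarith
    calc excess a X ≤ X ^ η * deficiency a (X ^ (1 + η)) := h1.2.1
      _ ≤ X ^ η * (X ^ (1 + η)) ^ (c + η) := by gcongr
      _ = X ^ (η + (c + η) * (1 + η)) := by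
          rw [← Real.rpow_mul h0.le, ← Real.rpow_add h0]
          congr 1
          ring
      _ ≤ X ^ (c + ε) := Real.rpow_le_rpow_of_exponent_le h3.le hη2
  · obtain ⟨hbc, hc⟩ := hc
    obtain ⟨η, hη, hη2⟩ : ∃ η : ℝ, 0 < η ∧ η + (c + η) * (1 + η) ≤ c + ε / 2 := by
      have hc0 : 0 < c := by linarith
      refine ⟨min 1 (ε / 2 / (3 + c)), lt_min one_pos (by positivity), ?_⟩
      set η := min 1 (ε / 2 / (3 + c))
      have h1 : η ≤ 1 := min_le_left _ _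
      have h2 : η ≤ ε / 2 / (3 + c) := min_le_right _ _
      have h3 : 0 < η := lt_min one_pos (by positivity)
      have h4 : η * (3 + c) ≤ ε / 2 := by rwa [le_div_iff₀ (by positivity)] at h2
      nlinarith
    have h5 : Tendsto (fun X : ℝ => X ^ (1 + η)) atTop atTop := tendsto_rpow_atTop (by linarith)
    have h6 : ∀ᶠ X : ℝ in atTop, 2 ≤ X ^ (ε / 2) :=
      (tendsto_rpow_atTop (by positivity : 0 < ε / 2)).eventually (eventually_ge_atTop 2)
    filter_upwards [hlaw' η hη, h5.eventually (hc η hη), eventually_gt_atTop 1, h6] with X h1 h2 h3 h4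
    have h0 : 0 < X := by linarith
    have h7 : X ^ η * X ^ b ≤ X ^ (c + ε / 2) := by
      rw [← Real.rpow_add h0]
      refine Real.rpow_le_rpow_of_exponent_le h3.le ?_
      nlinarith
    have h8 : X ^ η * excess a (X ^ (1 + η)) ≤ X ^ (c + ε / 2) := by
      calc X ^ η * excess a (X ^ (1 + η)) ≤ X ^ η * (X ^ (1 + η)) ^ (c + η) := by gcongr
        _ = X ^ (η + (c + η) * (1 + η)) := by
            rw [← Real.rpow_mul h0.le, ← Real.rpow_add h0]
            congr 1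
            ring
        _ ≤ X ^ (c + ε / 2) := Real.rpow_le_rpow_of_exponent_le h3.le hη2
    calc deficiency a X ≤ X ^ η * (X ^ b + excess a (X ^ (1 + η))) := h1.2.2
      _ = X ^ η * X ^ b + X ^ η * excess a (X ^ (1 + η)) := by ring
      _ ≤ 2 * X ^ (c + ε / 2) := by linarith
      _ ≤ X ^ (ε / 2) * X ^ (c + ε / 2) := by gcongr
      _ = X ^ (c + ε) := by
          rw [← Real.rpow_add h0]
          congr 1
          ring
  · -- the eigenvalues
    have h1 := hθ t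
    have h2 := hbc c hc
    have h3 : 8 * θ t ≤ c := h1.trans h2
    nlinarith

end Pool.Agent.Results.MP_a812b2_nt.SymFourBalance
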